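import Pool.Agent.Helper19.HV.Curve
import Pool.Agent.Helper91.PL.A2

/-!
# Project HV (MP_bae8ce_ag): module RES, the residue part of a family
-/

set_option autoImplicit false

namespace Pool.Agent.Helper19.HV

noncomputable section

open PL

private theorem mem0 {F : Type} [Field F] (k : ℕ) :
    (Finsupp.single (some 0) 1 : ZP F) ∈ R (k + 2) F := by
  rcases k with _ | k
  · exact Submodule.mem_sup_left (Submodule.subset_span (Or.inl rfl))
  · exact Submodule.mem_sup_left (Submodule.subset_span (Or.inl rfl))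

private theorem memI {F : Type} [Field F] (k : ℕ) :
    (Finsupp.single none 1 : ZP F) ∈ R (k + 2) F := by
  rcases k with _ | k
  · exact Submodule.mem_sup_left (Submodule.subset_span (Or.inr rfl))
  · exact Submodule.mem_sup_left (Submodule.subset_span (Or.inr rfl))

private theorem spC {F : Type} [Field F] (a : F) (β : ZP F) :
    spec a (mapP (RatFunc.C : F →+* RatFunc F) β) = β := by
  have h5 : (spec a ∘ₗ mapP (RatFunc.C : F →+* RatFunc F) : ZP F →ₗ[ℚ] ZP F) =
      LinearMap.id := by
    refine Finsupp.lhom_ext fun x b => ?_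
    simp only [spec, mapP, LinearMap.comp_apply, Finsupp.lmapDomain_apply,
      Finsupp.mapDomain_single, LinearMap.id_apply]
    congr 1
    rcases x with _ | x
    · rfl
    · exact val_C a x
  exact LinearMap.congr_fun h5 β

theorem mRES {F : Type} [Field F] (k : ℕ)
    {cV : V F →ₗ[ℚ] V (RatFunc F)} {lc : V (RatFunc F) →ₗ[ℚ] V F}
    {od : V (RatFunc F) →ₗ[ℚ] (F →₀ ℚ)} (hs : Spl cV lc od)
    (hF : ∀ α ∈ R (k + 2) F, mapP RatFunc.C α ∈ R (k + 2) (RatFunc F))
    (hS : ∀ (a : F), ∀ α ∈ R (k + 2) (RatFunc F), spec a α ∈ R (k + 2) F)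
    (α : ZP (RatFunc F))
    (h : ∀ l : V (RatFunc F) →ₗ[ℚ] ℚ,
      Finsupp.linearCombination ℚ
        (fun x => l (cl x) • (Finsupp.single x 1 : ZP (RatFunc F))) α ∈
          R (k + 2) (RatFunc F) ⊔ LinearMap.range (mapP (RatFunc.C : F →+* RatFunc F)))
    (a : F) :
    Finsupp.linearCombination ℚ
      (fun x => od (cl x) a • (Finsupp.single x 1 : ZP (RatFunc F))) α ∈
        R (k + 2) (RatFunc F) := by
  have h1 := h (Finsupp.lapply a ∘ₗ od)
  have h2 : (fun x => (Finsupp.lapply a ∘ₗ od : V (RatFunc F) →ₗ[ℚ] ℚ) (cl x) •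
      (Finsupp.single x 1 : ZP (RatFunc F))) =
      fun x => od (cl x) a • (Finsupp.single x 1 : ZP (RatFunc F)) := rfl
  rw [h2] at h1
  obtain ⟨r, hr, s, ⟨β, rfl⟩, hsum⟩ := Submodule.mem_sup.1 h1
  have h3 : spec a (Finsupp.linearCombination ℚ
      (fun x => od (cl x) a • (Finsupp.single x 1 : ZP (RatFunc F))) α) ∈ R (k + 2) F := by
    rw [Finsupp.linearCombination_apply, Finsupp.sum, map_sum]
    refine Submodule.sum_mem _ fun x _ => ?_
    rw [map_smul, map_smul]
    refine Submodule.smul_mem _ _ ?_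
    by_cases h0 : od (cl x) a = 0
    · rw [h0, zero_smul]
      exact Submodule.zero_mem _
    · refine Submodule.smul_mem _ _ ?_
      simp only [spec, Finsupp.lmapDomain_apply, Finsupp.mapDomain_single]
      rcases hs.val a x h0 with h4 | h4
      · rw [h4]
        exact mem0 k
      · rw [h4]
        exact memI k
  rw [← hsum, map_add, spC] at h3
  have h5 : β ∈ R (k + 2) F := by
    have := Submodule.sub_mem _ h3 (hS a r hr)
    simpa using this
  rw [← hsum]
  exact Submodule.add_mem _ hr (hF β h5)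

end

end Pool.Agent.Helper19.HV
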